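import Pool.Agent.H34.CGS.Stmts

/-!
# Board cgs, row BDD
-/

set_option autoImplicit false

noncomputable section

open Filter
open scoped Topology

namespace Pool.CGS

open Pool.CGR

theorem BDD.lin {m : ℕ} {A : Type} [CStarAlgebra A] (τ : A →ₗ[ℂ] ℂ) (x S : Fin m → A)
    (h : IsSemi τ x S) (i : Fin m) (W : List (Fin m ⊕ Fin m) →₀ ℂ) :
    dp τ (Sum.elim x S) (Sum.inr i) W = τ (S i * pe (Sum.elim x S) W) := by
  unfold dp pe
  simp only [Finsupp.sum]
  rw [Finset.mul_sum, map_sum]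
  refine Finset.sum_congr rfl (fun w _ => ?_)
  rw [← h i w, mul_smul_comm, map_smul, smul_eq_mul]

theorem bdd_thm (h1 : MXQStmt) : BDDStmt := by
  intro m A _ τ x S h s i P
  obtain ⟨ha, -, hb⟩ := h1 m A τ x S s P
  rw [hb i, BDD.lin τ x S h, ha]

end Pool.CGS
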