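import Pool.Agent.H34.CGS.Stmts

/-!
# Board cgs, row PCT
-/

set_option autoImplicit false

noncomputable section

open Filter
open scoped Topology

namespace Pool.CGS

open Pool.CGR

theorem pct_thm : PCTStmt := by
  intro m A _ x S R δ hδ
  have hcont : Continuous (fun s : ℝ => pe (sh x S (s : ℂ)) R) := by
    unfold pe
    simp only [Finsupp.sum]
    refine continuous_finsetSum _ (fun w _ => Continuous.const_smul ?_ _)
    unfold ev
    refine continuous_list_prod w (fun i _ => ?_)
    unfold sh
    exact continuous_const.add (Complex.continuous_ofReal.smul continuous_const)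
  have h0 : pe (sh x S ((0 : ℝ) : ℂ)) R = pe x R := by
    congr 1
    funext i
    simp [sh]
  obtain ⟨s₀, hs₀, h⟩ := (Metric.continuous_iff.1 hcont) 0 δ hδ
  refine ⟨s₀, hs₀, fun s hs => ?_⟩
  have h1 := h s (by simpa [Real.dist_eq] using hs)
  rw [h0, dist_eq_norm] at h1
  exact h1.le

end Pool.CGS
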